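import Pool.Agent.H74.TSD.Targets

/-! # MP_b907b5, board tsd_modules, module AE: an elementary inequality -/

set_option autoImplicit false

open MeasureTheory Set Metric Filter
open scoped ENNReal Pointwise Topology

namespace Pool.Agent.H86.TSD

open Pool.Agent.H74.TSD Pool.Agent.H73.TS

/-- the inner double sum -/
theorem ae_inner {n : ℕ} (x : Fin n → ℝ) (i : Fin n) :
    ∑ j, ∑ k, (if i ≠ j ∧ i ≠ k ∧ j ≠ k then x i * x j * x k else 0) =
      x i * ((∑ j ∈ Finset.univ.erase i, x j) ^ 2 - ∑ j ∈ Finset.univ.erase i, x j ^ 2) := by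
  have h1 : ∀ j ∈ Finset.univ.erase i, ∑ k, (if i ≠ j ∧ i ≠ k ∧ j ≠ k then x i * x j * x k else 0)
      = x i * (x j * (∑ k ∈ Finset.univ.erase i, x k) - x j ^ 2) := by
    intro j hj
    have hji : j ≠ i := (Finset.mem_erase.1 hj).1
    have h2 : ∀ k, (if i ≠ j ∧ i ≠ k ∧ j ≠ k then x i * x j * x k else 0) =
        if k ∈ (Finset.univ.erase i).erase j then x i * x j * x k else 0 := by
      intro k
      congr 1
      simp only [Finset.mem_erase, Finset.mem_univ, and_true, eq_iff_iff]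
      constructor
      · rintro ⟨-, h3, h4⟩
        exact ⟨fun h => h4 h.symm, fun h => h3 h.symm⟩
      · rintro ⟨h3, h4⟩
        exact ⟨fun h => hji h.symm, fun h => h4 h.symm, fun h => h3 h.symm⟩
    rw [Finset.sum_congr rfl fun k _ => h2 k, ← Finset.sum_filter]
    have h5 : Finset.univ.filter (fun k => k ∈ (Finset.univ.erase i).erase j) =
        (Finset.univ.erase i).erase j := by
      ext k
      simp
    rw [h5, ← Finset.mul_sum]
    have h6 := Finset.add_sum_erase (Finset.univ.erase i) x hj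
    rw [← h6]
    ring
  have h7 : ∑ j, ∑ k, (if i ≠ j ∧ i ≠ k ∧ j ≠ k then x i * x j * x k else 0) =
      ∑ j ∈ Finset.univ.erase i,
        ∑ k, (if i ≠ j ∧ i ≠ k ∧ j ≠ k then x i * x j * x k else 0) := by
    rw [← Finset.add_sum_erase Finset.univ _ (Finset.mem_univ i)]
    simp
  rw [h7, Finset.sum_congr rfl h1, ← Finset.mul_sum, Finset.sum_sub_distrib, ← Finset.sum_mul]
  ring

/-- AE. -/
theorem pf_AE : T_AE := by
  intro n x hn hx hs
  have hle : ∀ i, x i ≤ 1 := by
    intro i
    rw [← hs]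
    exact Finset.single_le_sum (f := x) (fun j _ => hx j) (Finset.mem_univ i)
  have h1 : ∀ i, ∑ j, ∑ k, (if i ≠ j ∧ i ≠ k ∧ j ≠ k then x i * x j * x k else 0) ≤
      4 / 5 * (5 * x i / 12 + 5 / 108) := by
    intro i
    rw [ae_inner]
    have h2 : ∑ j ∈ Finset.univ.erase i, x j = 1 - x i := by
      rw [← hs, ← Finset.add_sum_erase Finset.univ x (Finset.mem_univ i)]
      ring
    have h3 : (∑ j ∈ Finset.univ.erase i, x j) ^ 2 ≤
        5 * ∑ j ∈ Finset.univ.erase i, x j ^ 2 := by
      refine (sq_sum_le_card_mul_sum_sq (s := Finset.univ.erase i) (f := x)).trans ?_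
      refine mul_le_mul_of_nonneg_right ?_ (Finset.sum_nonneg fun j _ => sq_nonneg _)
      rw [Finset.card_erase_of_mem (Finset.mem_univ i), Finset.card_univ, Fintype.card_fin]
      have : n - 1 ≤ 5 := by omega
      exact_mod_cast this
    rw [h2] at h3 ⊢
    have h4 := hx i
    have h5 := hle i
    have h6 : x i * ((1 - x i) ^ 2 - ∑ j ∈ Finset.univ.erase i, x j ^ 2) ≤
        x i * (4 / 5 * (1 - x i) ^ 2) := by
      refine mul_le_mul_of_nonneg_left ?_ h4
      linarith
    have h7 : x i * (1 - x i) ^ 2 ≤ 5 * x i / 12 + 5 / 108 := by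
      have h8 : 0 ≤ (x i - 1 / 6) ^ 2 * (5 / 3 - x i) :=
        mul_nonneg (sq_nonneg _) (by linarith)
      nlinarith [h8]
    nlinarith [h6, h7]
  refine (Finset.sum_le_sum fun i _ => h1 i).trans ?_
  rw [← Finset.mul_sum, Finset.sum_add_distrib, ← Finset.sum_div, ← Finset.mul_sum, hs]
  rw [Finset.sum_const, Finset.card_univ, Fintype.card_fin, nsmul_eq_mul]
  have h9 : (n : ℝ) ≤ 6 := by exact_mod_cast hn
  linarith

end Pool.Agent.H86.TSD
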