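import Pool.Agent.H74.TSD.Targets

/-! # MP_b907b5, board tsd_modules, module CN: normal position of a cylinder -/

set_option autoImplicit false

open MeasureTheory Set Metric Filter
open scoped ENNReal Pointwise Topology

namespace Pool.Agent.H86.TSD

open Pool.Agent.H74.TSD Pool.Agent.H73.TS

theorem cn_sum {n : ℕ} {F : Type*} [AddCommMonoid F] (f : Fin (n + 2) → F) :
    ∑ i, f i = f 0 + (f 1 + ∑ i : Fin n, f i.succ.succ) := by
  rw [Fin.sum_univ_succ, Fin.sum_univ_succ]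
  rfl

/-- the vector (or number) family with the first two members given -/
def cn_cc {n : ℕ} {F : Type*} (a b : F) (c : Fin (n + 2) → F) : Fin (n + 2) → F :=
  Fin.cons a (Fin.cons b (fun i : Fin n => c i.succ.succ))

theorem cn_cc0 {n : ℕ} {F : Type*} (a b : F) (c : Fin (n + 2) → F) : cn_cc a b c 0 = a := rfl

theorem cn_cc1 {n : ℕ} {F : Type*} (a b : F) (c : Fin (n + 2) → F) : cn_cc a b c 1 = b := rfl

theorem cn_ccs {n : ℕ} {F : Type*} (a b : F) (c : Fin (n + 2) → F) (i : Fin n) :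
    cn_cc a b c i.succ.succ = c i.succ.succ := rfl

/-- the change of the coordinates -/
theorem cn_id {n : ℕ} (w : Fin (n + 2) → E (n + 2)) (v : E (n + 2)) (p q : ℝ × ℝ)
    (hD : wd p q ≠ 0) (mp mq : ℝ) (a : Fin (n + 2) → ℝ) :
    v + ∑ i, a i • w i =
      (v + mp • ((wd p q)⁻¹ • (q.2 • w 0 - q.1 • w 1)) +
        mq • ((wd p q)⁻¹ • (p.1 • w 1 - p.2 • w 0))) +
      ∑ i, (cn_cc (ev p (a 0, a 1) - mp) (ev q (a 0, a 1) - mq) a i) •
        (cn_cc ((wd p q)⁻¹ • (q.2 • w 0 - q.1 • w 1))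
          ((wd p q)⁻¹ • (p.1 • w 1 - p.2 • w 0)) w i) := by
  rw [cn_sum, cn_sum]
  simp only [cn_cc0, cn_cc1, cn_ccs]
  set S := ∑ i : Fin n, a i.succ.succ • w i.succ.succ
  have h1 : a 0 = a 0 * ((wd p q)⁻¹ * wd p q) := by
    rw [inv_mul_cancel₀ hD, mul_one]
  have h2 : a 1 = a 1 * ((wd p q)⁻¹ * wd p q) := by
    rw [inv_mul_cancel₀ hD, mul_one]
  have h3 : a 0 • w 0 + a 1 • w 1 =
      (a 0 * ((wd p q)⁻¹ * wd p q)) • w 0 + (a 1 * ((wd p q)⁻¹ * wd p q)) • w 1 := by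
    rw [← h1, ← h2]
  rw [← add_assoc (a 0 • w 0), h3]
  generalize (wd p q)⁻¹ = D'
  simp only [wd, ev]
  module

/-- CN. -/
theorem pf_CN (hW2 : T_W2) : T_CN := by
  intro n w v A hw hA hAc hAi
  obtain ⟨u1, u2, u3, u4, p, q, hp, hq, hD, hmax⟩ := hW2 A hA hAi
  obtain ⟨xp, _, yp, _, hxp, hap⟩ := u1 p
  obtain ⟨xq, _, yq, _, hxq, haq⟩ := u1 q
  rw [hp] at hxp
  rw [hq] at hxq
  set mp := ev p yp with hmp
  set mq := ev q yq with hmq
  set Φ : ℝ × ℝ → ℝ × ℝ := fun x => (ev p x - mp, ev q x - mq) with hΦ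
  set Ψ : ℝ × ℝ → ℝ × ℝ := fun y => ((wd p q)⁻¹ * (q.2 * (y.1 + mp) - p.2 * (y.2 + mq)),
    (wd p q)⁻¹ * (p.1 * (y.2 + mq) - q.1 * (y.1 + mp))) with hΨ
  have hD0 : wd p q ≠ 0 := hD.ne'
  have hΨΦ : ∀ x, Ψ (Φ x) = x := by
    intro x
    have hD1 : p.1 * q.2 - p.2 * q.1 ≠ 0 := hD0
    simp only [hΨ, hΦ, ev, wd]
    ext
    · field_simp
      ring
    · field_simp
      ring
  have hΦΨ : ∀ y, Φ (Ψ y) = y := by
    intro y
    have hD1 : (wd p q)⁻¹ * (p.1 * q.2 - p.2 * q.1) = 1 := inv_mul_cancel₀ hD0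
    simp only [hΨ, hΦ, ev]
    ext
    · show p.1 * ((wd p q)⁻¹ * (q.2 * (y.1 + mp) - p.2 * (y.2 + mq))) +
        p.2 * ((wd p q)⁻¹ * (p.1 * (y.2 + mq) - q.1 * (y.1 + mp))) - mp = y.1
      linear_combination (y.1 + mp) * hD1
    · show q.1 * ((wd p q)⁻¹ * (q.2 * (y.1 + mp) - p.2 * (y.2 + mq))) +
        q.2 * ((wd p q)⁻¹ * (p.1 * (y.2 + mq) - q.1 * (y.1 + mp))) - mq = y.2
      linear_combination (y.2 + mq) * hD1
  have hΦc : Continuous Φ := by
    simp only [hΦ, ev]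
    fun_prop
  have hΨc : Continuous Ψ := by
    simp only [hΨ]
    fun_prop
  have hpre : Φ '' A = Ψ ⁻¹' A := by
    ext y
    constructor
    · rintro ⟨x, hx, rfl⟩
      show Ψ (Φ x) ∈ A
      rw [hΨΦ]
      exact hx
    · intro hy
      exact ⟨Ψ y, hy, hΦΨ y⟩
  have hA'c : IsCompact (Φ '' A) := hA.image hΦc
  have hA'i : (interior (Φ '' A)).Nonempty := by
    obtain ⟨x, hx⟩ := hAi
    have hsub : Ψ ⁻¹' (interior A) ⊆ interior (Φ '' A) := by
      refine interior_maximal ?_ (isOpen_interior.preimage hΨc)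
      rw [hpre]
      exact preimage_mono interior_subset
    exact ⟨Φ x, hsub (by show Ψ (Φ x) ∈ interior A; rw [hΨΦ]; exact hx)⟩
  have hA'v : Convex ℝ (Φ '' A) := by
    rintro _ ⟨x, hx, rfl⟩ _ ⟨y, hy, rfl⟩ a b ha hb hab
    refine ⟨a • x + b • y, hAc hx hy ha hb hab, ?_⟩
    simp only [hΦ, ev]
    have hb' : b = 1 - a := by linarith
    subst hb'
    ext
    · simp only [Prod.fst_add, Prod.smul_fst, Prod.snd_add, Prod.smul_snd, smul_eq_mul]
      ring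
    · simp only [Prod.fst_add, Prod.smul_fst, Prod.snd_add, Prod.smul_snd, smul_eq_mul]
      ring
  -- the widths
  obtain ⟨t1, -, -, -, -⟩ := hW2 (Φ '' A) hA'c hA'i
  have hwid : ∀ r : ℝ × ℝ, wdt2 (Φ '' A) r = wdt2 A (r.1 • p + r.2 • q) := by
    intro r
    have hev : ∀ z, ev r (Φ z) = ev (r.1 • p + r.2 • q) z - (r.1 * mp + r.2 * mq) := by
      intro z
      simp only [hΦ, ev, Prod.fst_add, Prod.smul_fst, Prod.snd_add, Prod.smul_snd, smul_eq_mul]
      ring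
    obtain ⟨x', ⟨x₁, hx₁, rfl⟩, y', ⟨y₁, hy₁, rfl⟩, e1, b1⟩ := t1 r
    obtain ⟨x, hx, y, hy, e2, b2⟩ := u1 (r.1 • p + r.2 • q)
    rw [e1, e2]
    have c1 := b1 _ ⟨x, hx, rfl⟩
    have c2 := b1 _ ⟨y, hy, rfl⟩
    have c3 := b2 _ hx₁
    have c4 := b2 _ hy₁
    rw [hev, hev] at c1 c2
    rw [hev, hev]
    rw [hev] at c1 c2
    apply le_antisymm
    · linarith [c3.2, c4.1]
    · linarith [c1.2, c2.1]
  have hbox : ∀ x ∈ A, 0 ≤ (Φ x).1 ∧ (Φ x).1 ≤ 1 ∧ 0 ≤ (Φ x).2 ∧ (Φ x).2 ≤ 1 := by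
    intro x hx
    have h1 := hap x hx
    have h2 := haq x hx
    simp only [hΦ]
    refine ⟨?_, ?_, ?_, ?_⟩ <;> linarith [h1.1, h1.2, h2.1, h2.2]
  set w' : Fin (n + 2) → E (n + 2) := cn_cc ((wd p q)⁻¹ • (q.2 • w 0 - q.1 • w 1))
    ((wd p q)⁻¹ • (p.1 • w 1 - p.2 • w 0)) w with hw'
  set v' : E (n + 2) := v + mp • ((wd p q)⁻¹ • (q.2 • w 0 - q.1 • w 1)) +
        mq • ((wd p q)⁻¹ • (p.1 • w 1 - p.2 • w 0)) with hv'
  have hcyl : Cyl w' v' (Φ '' A) = Cyl w v A := by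
    ext y
    constructor
    · rintro ⟨a', ⟨x, hx, hxa⟩, ha', rfl⟩
      refine ⟨cn_cc x.1 x.2 a', ?_, ?_, ?_⟩
      · rw [cn_cc0, cn_cc1]
        exact hx
      · intro i
        rw [cn_ccs]
        exact ha' i
      · rw [cn_id w v p q hD0 mp mq]
        congr 1
        refine Finset.sum_congr rfl fun i _ => ?_
        congr 1
        have e0 : a' 0 = ev p x - mp := (congrArg Prod.fst hxa).symm
        have e1 : a' 1 = ev q x - mq := (congrArg Prod.snd hxa).symm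
        refine Fin.cases ?_ (fun j => ?_) i
        · rw [cn_cc0, cn_cc0, cn_cc1, e0]
        · refine Fin.cases ?_ (fun k => ?_) j
          · rw [Fin.succ_zero_eq_one, cn_cc1, cn_cc0, cn_cc1, e1]
          · rw [cn_ccs, cn_ccs]
    · rintro ⟨a, ha, ha2, rfl⟩
      refine ⟨cn_cc (ev p (a 0, a 1) - mp) (ev q (a 0, a 1) - mq) a, ⟨(a 0, a 1), ha, rfl⟩, ?_, ?_⟩
      · intro i
        rw [cn_ccs]
        exact ha2 i
      · exact cn_id w v p q hD0 mp mq a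
  refine ⟨w', v', Φ '' A, ?_, hA'c, hA'v, hA'i, ?_, ?_, hcyl, ?_⟩
  · -- linear independence
    have hcard : Fintype.card (Fin (n + 2)) = Module.finrank ℝ (E (n + 2)) := by simp
    refine linearIndependent_of_top_le_span_of_card_eq_finrank ?_ hcard
    rw [← hw.span_eq_top_of_card_eq_finrank' hcard]
    rw [Submodule.span_le]
    rintro _ ⟨i, rfl⟩
    have m0 : w' 0 ∈ Submodule.span ℝ (Set.range w') := Submodule.subset_span ⟨0, rfl⟩
    have m1 : w' 1 ∈ Submodule.span ℝ (Set.range w') := Submodule.subset_span ⟨1, rfl⟩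
    have key : ∀ s t : ℝ, s • w 0 + t • w 1 ∈ Submodule.span ℝ (Set.range w') := by
      intro s t
      have h3 : s • w 0 + t • w 1 = (p.1 * s + p.2 * t) • w' 0 + (q.1 * s + q.2 * t) • w' 1 := by
        rw [hw', cn_cc0, cn_cc1]
        have h1 : s = s * ((wd p q)⁻¹ * wd p q) := by
          rw [inv_mul_cancel₀ hD0, mul_one]
        have h2 : t = t * ((wd p q)⁻¹ * wd p q) := by
          rw [inv_mul_cancel₀ hD0, mul_one]
        have h4 : s • w 0 + t • w 1 = (s * ((wd p q)⁻¹ * wd p q)) • w 0 +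
            (t * ((wd p q)⁻¹ * wd p q)) • w 1 := by
          rw [← h1, ← h2]
        rw [h4]
        generalize (wd p q)⁻¹ = D'
        simp only [wd]
        module
      rw [h3]
      exact Submodule.add_mem _ (Submodule.smul_mem _ _ m0) (Submodule.smul_mem _ _ m1)
    refine Fin.cases ?_ (fun j => ?_) i
    · have := key 1 0
      rwa [one_smul, zero_smul, add_zero] at this
    · refine Fin.cases ?_ (fun k => ?_) j
      · have := key 0 1
        rwa [one_smul, zero_smul, zero_add] at this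
      · exact Submodule.subset_span ⟨k.succ.succ, rfl⟩
  · intro r r' hr hr'
    rw [hwid] at hr hr'
    have h1 := hmax _ _ hr hr'
    have h2 : wd (r.1 • p + r.2 • q) (r'.1 • p + r'.2 • q) = wd r r' * wd p q := by
      simp only [wd, Prod.fst_add, Prod.smul_fst, Prod.snd_add, Prod.smul_snd, smul_eq_mul]
      ring
    rw [h2, abs_mul, abs_of_pos hD] at h1
    by_contra hc
    push Not at hc
    nlinarith
  · rintro _ ⟨x, hx, rfl⟩
    obtain ⟨h1, h2, h3, h4⟩ := hbox x hx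
    exact ⟨⟨h1, h3⟩, ⟨h2, h4⟩⟩
  · rw [← hcyl]
    rintro _ ⟨a, ⟨x, hx, hxa⟩, ha2, rfl⟩
    obtain ⟨h1, h2, h3, h4⟩ := hbox x hx
    have e0 : a 0 = (Φ x).1 := (congrArg Prod.fst hxa).symm
    have e1 : a 1 = (Φ x).2 := (congrArg Prod.snd hxa).symm
    refine ⟨a, fun i => ?_, rfl⟩
    refine Fin.cases ?_ (fun j => ?_) i
    · rw [e0]
      exact ⟨h1, h2⟩
    · refine Fin.cases ?_ (fun k => ?_) j
      · rw [Fin.succ_zero_eq_one, e1]
        exact ⟨h3, h4⟩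
      · exact ha2 k

end Pool.Agent.H86.TSD
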