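import Pool.Agent.H74.TSD.Targets

/-! # MP_b907b5, board tsd_modules, module LT: the lattice packing, with given functionals -/

set_option autoImplicit false

open MeasureTheory Set Metric Filter
open scoped ENNReal Pointwise Topology

namespace Pool.Agent.H86.TSD

open Pool.Agent.H74.TSD Pool.Agent.H73.TS

theorem lt_coord_sum {d : ℕ} {w : Fin d → E d} {φ : Fin d → (E d →L[ℝ] ℝ)}
    (hφ : ∀ i j, φ i (w j) = if i = j then 1 else 0) (i : Fin d) (a : Fin d → ℝ) :
    φ i (∑ j, a j • w j) = a i := by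
  rw [map_sum]
  simp [hφ]

theorem lt_coord_par {d : ℕ} {w : Fin d → E d} {v : E d} {φ : Fin d → (E d →L[ℝ] ℝ)}
    (hφ : ∀ i j, φ i (w j) = if i = j then 1 else 0) (i : Fin d) {y : E d} (hy : y ∈ Par w v) :
    φ i v ≤ φ i y ∧ φ i y ≤ φ i v + 1 := by
  obtain ⟨a, ha, rfl⟩ := hy
  rw [map_add, lt_coord_sum hφ]
  exact ⟨by linarith [(ha i).1], by linarith [(ha i).2]⟩

theorem lt_int_ne {d : ℕ} {w : Fin d → E d} {v : E d} {K : Set (E d)}
    {φ : Fin d → (E d →L[ℝ] ℝ)}
    (hφ : ∀ i j, φ i (w j) = if i = j then 1 else 0) (hK : K ⊆ Par w v) (i : Fin d) {u y : E d}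
    (hu : u ∈ Lat w) (hy : y ∈ interior ((fun x => u + x) '' K)) (n : ℤ) :
    φ i y ≠ φ i v + n := by
  obtain ⟨m, rfl⟩ := hu
  have hc : Continuous fun t : ℝ => y + t • w i := by fun_prop
  have h1 : ∀ᶠ t in nhds (0 : ℝ), y + t • w i ∈
      interior ((fun x => (∑ j, (m j : ℝ) • w j) + x) '' K) := by
    refine hc.continuousAt.eventually (isOpen_interior.mem_nhds ?_)
    show y + (0 : ℝ) • w i ∈ _
    rw [zero_smul, add_zero]
    exact hy
  obtain ⟨ε, hε, h2⟩ := Metric.eventually_nhds_iff.1 h1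
  have key : ∀ t : ℝ, |t| < ε → φ i v ≤ φ i y + t - m i ∧ φ i y + t - m i ≤ φ i v + 1 := by
    intro t ht
    have h3 := interior_subset (h2 (y := t) (by simpa using ht))
    obtain ⟨x, hx, hx2⟩ := h3
    have h4 := lt_coord_par hφ i (hK hx)
    have h5 : φ i ((∑ j, (m j : ℝ) • w j) + x) = φ i (y + t • w i) := congrArg (φ i) hx2
    rw [map_add, map_add, map_smul, lt_coord_sum hφ, hφ, if_pos rfl, smul_eq_mul, mul_one] at h5
    constructor <;> linarith [h4.1, h4.2]
  have h3 := (key (-(ε / 2)) (by rw [abs_neg, abs_of_pos (by linarith)]; linarith)).1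
  have h4 := (key (ε / 2) (by rw [abs_of_pos (by linarith)]; linarith)).2
  intro h5
  rw [h5] at h3 h4
  have h6 : m i < n := by
    have : (m i : ℝ) < n := by linarith
    exact_mod_cast this
  have h7 : n < m i + 1 := by
    have : (n : ℝ) < m i + 1 := by linarith
    exact_mod_cast this
  omega

/-- LT. The lattice packing is totally separable, with hyperplanes whose normals are among the
given coordinate functionals. -/
theorem pf_LT : T_LT := by
  intro d w v K φ N _ hφ hN hNs hK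
  rintro t ⟨m, rfl⟩ s ⟨n, rfl⟩ hts
  have h1 : ∃ i, m i ≠ n i := by
    by_contra h
    push Not at h
    exact hts (by rw [funext h])
  obtain ⟨i, hi⟩ := h1
  have h0 : φ i ≠ 0 := by
    intro h
    have h2 := hφ i i
    rw [h, if_pos rfl] at h2
    simp at h2
  rcases lt_or_gt_of_ne hi with h | h
  · refine ⟨φ i, hN i, φ i v + n i, h0, ?_, ?_, fun u hu y hy => lt_int_ne hφ hK i hu hy _⟩
    · intro x hx
      have h2 := (lt_coord_par hφ i (hK hx)).2
      have h3 : (m i : ℝ) + 1 ≤ n i := by exact_mod_cast h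
      rw [map_add, lt_coord_sum hφ]
      linarith
    · intro x hx
      have h2 := (lt_coord_par hφ i (hK hx)).1
      rw [map_add, lt_coord_sum hφ]
      linarith
  · refine ⟨(-1 : ℝ) • φ i, hNs _ (hN i) _, -(φ i v + m i), ?_, ?_, ?_, fun u hu y hy h2 => ?_⟩
    · exact smul_ne_zero (by norm_num) h0
    · intro x hx
      have h2 := (lt_coord_par hφ i (hK hx)).1
      have h4 : ((-1 : ℝ) • φ i) ((∑ j, (m j : ℝ) • w j) + x) =
          (-1 : ℝ) * φ i ((∑ j, (m j : ℝ) • w j) + x) := rfl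
      rw [h4, map_add, lt_coord_sum hφ]
      linarith
    · intro x hx
      have h2 := (lt_coord_par hφ i (hK hx)).2
      have h3 : (n i : ℝ) + 1 ≤ m i := by exact_mod_cast h
      have h4 : ((-1 : ℝ) • φ i) ((∑ j, (n j : ℝ) • w j) + x) =
          (-1 : ℝ) * φ i ((∑ j, (n j : ℝ) • w j) + x) := rfl
      rw [h4, map_add, lt_coord_sum hφ]
      linarith
    · have h4 : ((-1 : ℝ) • φ i) y = (-1 : ℝ) * φ i y := rfl
      rw [h4] at h2
      exact lt_int_ne hφ hK i hu hy (m i) (by linarith)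

end Pool.Agent.H86.TSD
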