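import Pool.Agent.H74.TSD.Targets

/-! # MP_b907b5, board tsd_modules, module MX: the best circumscribed parallelotope -/

set_option autoImplicit false

open MeasureTheory Set Metric Filter
open scoped ENNReal Pointwise Topology

namespace Pool.Agent.H86.TSD

open Pool.Agent.H74.TSD Pool.Agent.H73.TS

/-- the determinant is continuous -/
theorem mx_dt_cont {d : ℕ} : Continuous fun g : Fin d → (E d →L[ℝ] ℝ) => dt g := by
  unfold dt
  refine Continuous.matrix_det ?_
  refine continuous_matrix fun i j => ?_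
  show Continuous fun g : Fin d → (E d →L[ℝ] ℝ) => g i (EuclideanSpace.single j (1 : ℝ))
  have h1 : Continuous fun g : Fin d → (E d →L[ℝ] ℝ) => g i := continuous_apply i
  exact (ContinuousLinearMap.apply ℝ ℝ (EuclideanSpace.single j (1 : ℝ))).continuous.comp h1

/-- MX. -/
theorem pf_MX (hW1 : T_W1) : T_MX := by
  intro d N K hK hKi hN hNs f hf hdt
  have hKne : K.Nonempty := hKi.mono interior_subset
  obtain ⟨w1, w2, w3, w4⟩ := hW1 d K hK hKne
  have w4' := w4 hKi
  -- the functionals are nonzero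
  have hf0 : ∀ i, f i ≠ 0 := by
    intro i h0
    apply hdt
    unfold dt
    refine Matrix.det_eq_zero_of_row_eq_zero i fun j => ?_
    show f i (EuclideanSpace.single j (1 : ℝ)) = 0
    rw [h0]
    rfl
  have hfw : ∀ i, 0 < wdt K (f i) := fun i => w4' _ (hf0 i)
  -- the ball inside K
  obtain ⟨z, hz⟩ := hKi
  obtain ⟨r, hr, hball⟩ := Metric.isOpen_iff.1 isOpen_interior z hz
  have hzK : z ∈ K := interior_subset hz
  have hbound : ∀ g : E d →L[ℝ] ℝ, wdt K g = 1 → ‖g‖ ≤ 2 / r := by
    intro g hg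
    refine ContinuousLinearMap.opNorm_le_bound g (by positivity) fun u => ?_
    by_cases hu : u = 0
    · rw [hu]; simp
    have hun : 0 < ‖u‖ := norm_pos_iff.2 hu
    set c : ℝ := r / (2 * ‖u‖) with hc
    have hcpos : 0 < c := by positivity
    have hmem : z + c • u ∈ K := by
      refine interior_subset (hball ?_)
      rw [Metric.mem_ball, dist_eq_norm]
      have : z + c • u - z = c • u := by abel
      rw [this, norm_smul, Real.norm_of_nonneg hcpos.le, hc]
      have : r / (2 * ‖u‖) * ‖u‖ = r / 2 := by field_simp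
      rw [this]
      linarith
    obtain ⟨x, _, y, _, hxy, hall⟩ := w1 g
    rw [hg] at hxy
    have h1 := hall _ hmem
    have h2 := hall _ hzK
    rw [map_add, map_smul, smul_eq_mul] at h1
    have h3 : |c * g u| ≤ 1 := by
      rw [abs_le]
      constructor <;> linarith [h1.1, h1.2, h2.1, h2.2]
    rw [abs_mul, abs_of_pos hcpos] at h3
    rw [Real.norm_eq_abs]
    have h4 : |g u| ≤ 1 / c := by
      rw [le_div_iff₀ hcpos]
      linarith
    refine h4.trans (le_of_eq ?_)
    rw [hc]
    field_simp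
  -- the set Q
  set Q : Set (Fin d → (E d →L[ℝ] ℝ)) := {h | ∀ i, h i ∈ N ∧ wdt K (h i) = 1} with hQ
  have hQc : IsClosed Q := by
    have : Q = ⋂ i, {h : Fin d → (E d →L[ℝ] ℝ) | h i ∈ N ∧ wdt K (h i) = 1} := by
      ext h
      simp [hQ]
    rw [this]
    refine isClosed_iInter fun i => ?_
    have ha : Continuous fun h : Fin d → (E d →L[ℝ] ℝ) => h i := continuous_apply i
    exact (hN.preimage ha).inter (isClosed_eq (w3.comp ha) continuous_const)
  have hQb : Bornology.IsBounded Q := by
    refine (Metric.isBounded_closedBall (x := (0 : Fin d → (E d →L[ℝ] ℝ)))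
      (r := 2 / r)).subset fun h hh => ?_
    rw [mem_closedBall, dist_zero_right, pi_norm_le_iff_of_nonneg (by positivity)]
    exact fun i => hbound _ (hh i).2
  have : ProperSpace (E d →L[ℝ] ℝ) := FiniteDimensional.proper_real _
  have hQk : IsCompact Q := Metric.isCompact_of_isClosed_isBounded hQc hQb
  -- the normalised functionals
  set h0 : Fin d → (E d →L[ℝ] ℝ) := fun i => (wdt K (f i))⁻¹ • f i with hh0
  have hh0Q : h0 ∈ Q := by
    intro i
    refine ⟨hNs _ (hf i) _, ?_⟩
    show wdt K ((wdt K (f i))⁻¹ • f i) = 1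
    rw [w2, abs_of_pos (inv_pos.2 (hfw i)), inv_mul_cancel₀ (hfw i).ne']
  have hh0dt : dt h0 ≠ 0 := by
    have : dt h0 = (∏ i, (wdt K (f i))⁻¹) * dt f := by
      unfold dt
      rw [← Matrix.det_mul_column]
      rfl
    rw [this]
    exact mul_ne_zero (Finset.prod_ne_zero_iff.2 fun i _ => (inv_pos.2 (hfw i)).ne') hdt
  obtain ⟨g, hgQ, hgmax⟩ := hQk.exists_isMaxOn ⟨h0, hh0Q⟩
    (mx_dt_cont.abs).continuousOn
  refine ⟨g, hgQ, ?_, fun h hh => hgmax hh⟩
  have h5 : |dt h0| ≤ |dt g| := hgmax hh0Q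
  have h6 : 0 < |dt h0| := abs_pos.2 hh0dt
  exact abs_pos.1 (h6.trans_le h5)

end Pool.Agent.H86.TSD
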